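import Pool.Agent.Helper16.BZ.Stmts

/-!
PTC2: the random part (MP_7a8f48_an).
-/

set_option autoImplicit false

open Finset Filter MeasureTheory Topology
open scoped ComplexConjugate InnerProductSpace

namespace Pool.Agent.Helper16.BZ

open Pool.Agent.Helper16.AZ (T E Op mm Eig PP ST_VDH ST_MSR ST_MRF ST_FPV)
open Pool.Agent.Helper16.MD (MS PB Am RW Rich)

/-- second moments -/
theorem ptc2_sm {X : Type} [MetricSpace X] [CompactSpace X] [MeasurableSpace X]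
    [BorelSpace X] (S : X → X) (m : Measure X) [IsProbabilityMeasure m] {d : ℕ} (φ : X → Op d)
    (c : X → E d) (u : E d) (x : X) (hEQ : EQ S m) (hφ : UC φ) (hc : Continuous c)
    (hc2 : ∫ x, ‖c x‖ ^ 2 ∂m ≤ 3 / 2) (hu : ‖u‖ ≤ 1) (p : ℕ) (hp : 1 ≤ p) :
    ∀ᶠ M : ℕ in atTop, ∑ y ∈ Icc 1 M, ‖ff S φ c u x (p * y)‖ ^ 2 ≤ 2 * (M : ℝ) := by
  have hF : Continuous (fun y : X => ((‖c y‖ ^ 2 : ℝ) : ℂ)) :=
    Complex.continuous_ofReal.comp ((hc.norm).pow 2)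
  have h1 := hEQ p hp (fun y : X => ((‖c y‖ ^ 2 : ℝ) : ℂ)) hF x
  have h2 : ∫ y, ((‖c y‖ ^ 2 : ℝ) : ℂ) ∂m = ((∫ y, ‖c y‖ ^ 2 ∂m : ℝ) : ℂ) := integral_ofReal
  rw [h2] at h1
  have h3 : Tendsto (fun N : ℕ => (∑ n ∈ range N, ‖c (S^[p * n] x)‖ ^ 2) / (N : ℝ)) atTop
      (𝓝 (∫ y, ‖c y‖ ^ 2 ∂m)) := by
    have h4 := (Complex.continuous_re.tendsto _).comp h1
    rw [Complex.ofReal_re] at h4
    refine h4.congr fun N => ?_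
    simp only [Function.comp]
    have : (∑ n ∈ range N, ((‖c (S^[p * n] x)‖ ^ 2 : ℝ) : ℂ)) / (N : ℂ) =
        (((∑ n ∈ range N, ‖c (S^[p * n] x)‖ ^ 2) / (N : ℝ) : ℝ) : ℂ) := by
      push_cast
      rfl
    rw [this, Complex.ofReal_re]
  have h5 : ∀ᶠ N : ℕ in atTop, (∑ n ∈ range N, ‖c (S^[p * n] x)‖ ^ 2) / (N : ℝ) < 7 / 4 :=
    h3.eventually (gt_mem_nhds (by linarith))
  obtain ⟨N₀, hN₀⟩ := eventually_atTop.1 h5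
  filter_upwards [eventually_ge_atTop (N₀ + 7)] with M hM
  have h6 := hN₀ (M + 1) (by omega)
  rw [div_lt_iff₀ (by positivity)] at h6
  have h7 : ∑ y ∈ Icc 1 M, ‖ff S φ c u x (p * y)‖ ^ 2 ≤
      ∑ n ∈ range (M + 1), ‖c (S^[p * n] x)‖ ^ 2 := by
    have h8 : ∑ y ∈ Icc 1 M, ‖ff S φ c u x (p * y)‖ ^ 2 ≤
        ∑ y ∈ Icc 1 M, ‖c (S^[p * y] x)‖ ^ 2 := by
      refine Finset.sum_le_sum fun y _ => ?_
      exact pow_le_pow_left₀ (norm_nonneg _) (ff_norm' S φ c hφ.2 u x (p * y) hu) 2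
    refine h8.trans (Finset.sum_le_sum_of_subset_of_nonneg ?_ ?_)
    · intro y hy
      rw [Finset.mem_Icc] at hy
      rw [Finset.mem_range]
      omega
    · intro y _ _
      positivity
  have h9 : (7 : ℝ) ≤ M := by
    have : 7 ≤ M := by omega
    exact_mod_cast this
  push_cast at h6
  linarith

/-- correlations for one pair of shifts -/
theorem ptc2_pd {X : Type} [MetricSpace X] [CompactSpace X] [MeasurableSpace X]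
    [BorelSpace X] (S : X → X) (m : Measure X) [IsProbabilityMeasure m] {d : ℕ} (φ : X → Op d)
    (c : X → E d) (x : X) (hS : Continuous S) (hφ : UC φ) (hc : Continuous c) (V κ₁ ε δ : ℝ)
    (hV : 1 ≤ V) (hcV : ∀ x, ‖c x‖ ≤ V) (i : ℕ) (Q : Finset ℕ)
    (hPD : ∀ F : ℕ → X → ℂ, (∀ p ∈ Q, Continuous (F p) ∧ (∀ x, ‖F p x‖ ≤ 1) ∧
      ∀ x y : X, dist x y ≤ Real.exp (-ε * 2 ^ i) → ‖F p x - F p y‖ ≤ δ) →
      ∀ x : X, ∀ᶠ M : ℕ in atTop, ∑ y ∈ Icc 1 M, ‖∑ p ∈ Q, F p (S^[p * y] x)‖ ^ 2 ≤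
        (‖∑ p ∈ Q, ∫ y, F p y ∂m‖ ^ 2 + κ₁ * ((PB 1 i).card : ℝ) ^ 2) * M)
    (h h' : ℕ) (hasy : ∀ p ∈ Q, ∀ x y : X, dist x y ≤ Real.exp (-ε * 2 ^ i) →
      ‖EE S φ c (p * h) (p * h') x - EE S φ c (p * h) (p * h') y‖ ≤ δ * V ^ 2) :
    ∀ᶠ M : ℕ in atTop,
      ∑ y ∈ Icc 1 M, ‖∑ p ∈ Q, EE S φ c (p * h) (p * h') (S^[p * y] x)‖ ^ 2 ≤
        (‖∑ p ∈ Q, ∫ y, EE S φ c (p * h) (p * h') y ∂m‖ ^ 2 +
          V ^ 4 * κ₁ * ((PB 1 i).card : ℝ) ^ 2) * M := by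
  have hV0 : 0 < V := by linarith
  have hV2 : (0 : ℝ) < V ^ 2 := by positivity
  have hVn : ‖((V ^ 2 : ℝ) : ℂ)‖ = V ^ 2 := by
    rw [Complex.norm_real, Real.norm_eq_abs, abs_of_pos hV2]
  have h1 := hPD (fun p y => EE S φ c (p * h) (p * h') y / ((V ^ 2 : ℝ) : ℂ)) (by
    intro p hp
    refine ⟨(EE_continuous S φ c hS hφ.1 hc _ _).div_const _, ?_, ?_⟩
    · intro y
      rw [norm_div, hVn, div_le_one hV2]
      exact EE_norm S φ c hφ.2 V hcV _ _ y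
    · intro y z hyz
      rw [← sub_div, norm_div, hVn, div_le_iff₀ hV2]
      exact hasy p hp y z hyz) x
  filter_upwards [h1] with M hM
  have e1 : ∀ y, ‖∑ p ∈ Q, EE S φ c (p * h) (p * h') (S^[p * y] x) / ((V ^ 2 : ℝ) : ℂ)‖ ^ 2 =
      ‖∑ p ∈ Q, EE S φ c (p * h) (p * h') (S^[p * y] x)‖ ^ 2 / V ^ 4 := by
    intro y
    rw [← Finset.sum_div, norm_div, hVn, div_pow]
    congr 1
    ring
  have e2 : ‖∑ p ∈ Q, ∫ y, EE S φ c (p * h) (p * h') y / ((V ^ 2 : ℝ) : ℂ) ∂m‖ ^ 2 =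
      ‖∑ p ∈ Q, ∫ y, EE S φ c (p * h) (p * h') y ∂m‖ ^ 2 / V ^ 4 := by
    simp_rw [integral_div]
    rw [← Finset.sum_div, norm_div, hVn, div_pow]
    congr 1
    ring
  simp only [e1] at hM
  rw [e2, ← Finset.sum_div, div_le_iff₀ (by positivity)] at hM
  refine hM.trans (le_of_eq ?_)
  field_simp

theorem st_PTC2 (hkt : ST_KT2) (hgam : ST_GAM2) (hasy : ST_ASY2)
    (hw : Pool.Agent.Helper16.MD.ST_WND) : ST_PTC2 := by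
  intro η hη hη1
  obtain ⟨c₀, hc₀, hkt'⟩ := hkt η hη hη1
  refine ⟨c₀ ^ 2 / 4, by positivity, ?_⟩
  intro X _ _ _ _ S m _ d φ c u x H hEQ hGR hPD hφ hLM hc hc2 hu hH hyp
  by_contra hcon
  have hfreq : ∃ᶠ N : ℕ in atTop, η * N ≤ ‖MS (ff S φ c u x) N‖ := by
    rw [Filter.not_eventually] at hcon
    exact hcon.mono fun N hN => le_of_lt (not_le.1 hN)
  obtain ⟨V, hV, hcV⟩ : ∃ V : ℝ, 1 ≤ V ∧ ∀ x, ‖c x‖ ≤ V := by
    obtain ⟨C, hC⟩ := (isCompact_range hc).isBounded.exists_norm_le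
    exact ⟨max C 1, le_max_right _ _, fun y => (hC _ (Set.mem_range_self y)).trans
      (le_max_left _ _)⟩
  have hV0 : 0 < V := by linarith
  obtain ⟨ε, δ, hε, hδ, I₁, hPD'⟩ := hPD (c₀ ^ 2 / (8 * V ^ 4)) (by positivity)
  obtain ⟨I₀, hI₀⟩ := hasy X S d φ c V ε (δ * V ^ 2) H S.continuous hGR hφ hLM hc hcV hε
    (by positivity)
  obtain ⟨K, hK2, hK⟩ := hw (64 * V ^ 2 / η ^ 2)
  obtain ⟨I₃, hI₃⟩ := eventually_atTop.1 hyp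
  obtain ⟨I₂, hI₂⟩ := pow_unbounded_of_one_lt (24 * V / η) (one_lt_two : (1 : ℝ) < 2)
  obtain ⟨I, hI⟩ : ∃ I : ℕ, I = I₀ + I₁ + I₂ + I₃ + 1 := ⟨_, rfl⟩
  have hmem : ∀ i ∈ RW 1 I K, I ≤ i ∧ Rich 1 i := by
    intro i hi
    unfold RW at hi
    rw [Finset.mem_filter, Finset.mem_Ico] at hi
    exact ⟨hi.1.1, hi.2⟩
  have h24 : ∀ i ∈ RW 1 I K, 24 * V / η ≤ (2 : ℝ) ^ i := by
    intro i hi
    have h1 : I ≤ i := (hmem i hi).1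
    exact hI₂.le.trans (pow_le_pow_right₀ one_le_two (by omega))
  have hAm : 64 * V ^ 2 / η ^ 2 ≤ Am 1 (RW 1 I K) :=
    hK I 1 (by omega) le_rfl (Nat.one_le_two_pow)
  obtain ⟨i, hiR, Q, hQ, hfr⟩ := hkt' V (RW 1 I K) (ff S φ c u x) hV
    (fun n => ff_norm S φ c hφ.2 u x n V hcV hu)
    (fun p hp => ptc2_sm S m φ c u x hEQ hφ hc hc2 hu p hp) h24 hAm hfreq
  obtain ⟨hIi, hrich⟩ := hmem i hiR
  have hyp2 := hI₃ i (by omega) hrich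
  obtain ⟨b, hb⟩ : ∃ b : ℝ, b = ((PB 1 i).card : ℝ) := ⟨_, rfl⟩
  have hb0 : 0 < b := by
    rw [hb]
    have h1 : 0 < (PB 1 i).card := by
      rcases Nat.eq_zero_or_pos (PB 1 i).card with h0 | h0
      · exfalso
        unfold Rich at hrich
        rw [h0, mul_zero] at hrich
        exact absurd hrich (by simp)
      · exact h0
    exact_mod_cast h1
  have hqb : (Q.card : ℝ) ≤ b := by
    rw [hb]
    exact_mod_cast Finset.card_le_card hQ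
  have hq0 : (0 : ℝ) ≤ Q.card := Nat.cast_nonneg _
  rw [← hb] at hyp2
  -- all pairs of shifts
  have hall : ∀ᶠ M : ℕ in atTop, ∀ h ∈ range H, ∀ h' ∈ range H,
      ∑ y ∈ Icc 1 M, ‖∑ p ∈ Q, EE S φ c (p * h) (p * h') (S^[p * y] x)‖ ^ 2 ≤
        (‖∑ p ∈ Q, ∫ y, EE S φ c (p * h) (p * h') y ∂m‖ ^ 2 +
          V ^ 4 * (c₀ ^ 2 / (8 * V ^ 4)) * ((PB 1 i).card : ℝ) ^ 2) * M := by
    rw [Filter.eventually_all_finset]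
    intro h hh
    rw [Filter.eventually_all_finset]
    intro h' hh'
    rw [Finset.mem_range] at hh hh'
    exact ptc2_pd S m φ c x S.continuous hφ hc V (c₀ ^ 2 / (8 * V ^ 4)) ε δ hV hcV i Q
      (fun F hF y => hPD' i (by omega) hrich Q hQ F hF y) h h'
      (fun p hp y z hyz => hI₀ i (by omega) p (hQ hp) h hh h' hh' y z hyz)
  have hlarge : ∀ᶠ M : ℕ in atTop, 16 * V ^ 4 * H / c₀ ^ 2 + H < (M : ℝ) :=
    tendsto_natCast_atTop_atTop.eventually_gt_atTop _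
  obtain ⟨M, hM1, hM2, hM3⟩ := (hfr.and_eventually (hall.and hlarge)).exists
  obtain ⟨Sg, hSg⟩ : ∃ Sg : ℝ, Sg = ∑ y ∈ Icc 1 M, ‖∑ p ∈ Q, ff S φ c u x (p * y)‖ ^ 2 :=
    ⟨_, rfl⟩
  have hg := hgam X S d φ c u x V Q H M hφ.2 hcV hu hH
  rw [← hSg] at hM1 hg
  rw [← hb] at hM1
  have hHpos : (0 : ℝ) < (H : ℝ) := by exact_mod_cast hH
  have hMpos : (0 : ℝ) < (M : ℝ) := by
    have : (0 : ℝ) ≤ 16 * V ^ 4 * H / c₀ ^ 2 := by positivity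
    linarith
  have hHM : (H : ℝ) ≤ M := by
    have : (0 : ℝ) ≤ 16 * V ^ 4 * H / c₀ ^ 2 := by positivity
    linarith
  have hM4 : 16 * V ^ 4 * H < c₀ ^ 2 * M := by
    have h1 : 16 * V ^ 4 * H / c₀ ^ 2 < M := by linarith
    rw [div_lt_iff₀ (by positivity)] at h1
    linarith
  -- upper bound
  have hint : ∀ h ∈ range H, ∀ h' ∈ range H,
      ∑ y ∈ Icc 1 M, ‖∑ p ∈ Q, EE S φ c (p * h) (p * h') (S^[p * y] x)‖ ^ 2 ≤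
      (b * ∑ p ∈ PB 1 i, ‖∫ y, EE S φ c (p * h) (p * h') y ∂m‖ ^ 2 +
        c₀ ^ 2 / 8 * b ^ 2) * M := by
    intro h hh h' hh'
    refine (hM2 h hh h' hh').trans ?_
    refine mul_le_mul_of_nonneg_right ?_ hMpos.le
    rw [← hb]
    have e1 : V ^ 4 * (c₀ ^ 2 / (8 * V ^ 4)) = c₀ ^ 2 / 8 := by
      field_simp
    rw [e1]
    have h3 : ‖∑ p ∈ Q, ∫ y, EE S φ c (p * h) (p * h') y ∂m‖ ^ 2 ≤
        (∑ p ∈ Q, ‖∫ y, EE S φ c (p * h) (p * h') y ∂m‖) ^ 2 :=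
      pow_le_pow_left₀ (norm_nonneg _) (norm_sum_le _ _) 2
    have h4 : (∑ p ∈ Q, ‖∫ y, EE S φ c (p * h) (p * h') y ∂m‖) ^ 2 ≤
        Q.card * ∑ p ∈ Q, ‖∫ y, EE S φ c (p * h) (p * h') y ∂m‖ ^ 2 :=
      sq_sum_le_card_mul_sum_sq
    have h5 : ∑ p ∈ Q, ‖∫ y, EE S φ c (p * h) (p * h') y ∂m‖ ^ 2 ≤
        ∑ p ∈ PB 1 i, ‖∫ y, EE S φ c (p * h) (p * h') y ∂m‖ ^ 2 :=
      Finset.sum_le_sum_of_subset_of_nonneg hQ fun _ _ _ => by positivity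
    have h6 : (Q.card : ℝ) * ∑ p ∈ Q, ‖∫ y, EE S φ c (p * h) (p * h') y ∂m‖ ^ 2 ≤
        b * ∑ p ∈ PB 1 i, ‖∫ y, EE S φ c (p * h) (p * h') y ∂m‖ ^ 2 :=
      mul_le_mul hqb h5 (Finset.sum_nonneg fun _ _ => by positivity) hb0.le
    linarith
  have hup : ∑ h ∈ range H, ∑ h' ∈ range H, ∑ y ∈ Icc 1 M,
      ‖∑ p ∈ Q, EE S φ c (p * h) (p * h') (S^[p * y] x)‖ ^ 2 ≤
      3 / 8 * c₀ ^ 2 * b ^ 2 * (H : ℝ) ^ 2 * M := by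
    have h1 : ∑ h ∈ range H, ∑ h' ∈ range H, ∑ y ∈ Icc 1 M,
        ‖∑ p ∈ Q, EE S φ c (p * h) (p * h') (S^[p * y] x)‖ ^ 2 ≤
        ∑ h ∈ range H, ∑ h' ∈ range H,
        (b * ∑ p ∈ PB 1 i, ‖∫ y, EE S φ c (p * h) (p * h') y ∂m‖ ^ 2 +
        c₀ ^ 2 / 8 * b ^ 2) * M :=
      Finset.sum_le_sum fun h hh => Finset.sum_le_sum fun h' hh' => hint h hh h' hh'
    refine h1.trans ?_
    have h2 : ∑ h ∈ range H, ∑ h' ∈ range H,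
        (b * ∑ p ∈ PB 1 i, ‖∫ y, EE S φ c (p * h) (p * h') y ∂m‖ ^ 2 +
        c₀ ^ 2 / 8 * b ^ 2) * (M : ℝ) =
        (b * (∑ p ∈ PB 1 i, ∑ h ∈ range H, ∑ h' ∈ range H,
          ‖∫ y, EE S φ c (p * h) (p * h') y ∂m‖ ^ 2) +
          (H : ℝ) ^ 2 * (c₀ ^ 2 / 8 * b ^ 2)) * M := by
      have h3 : ∑ p ∈ PB 1 i, ∑ h ∈ range H, ∑ h' ∈ range H,
          ‖∫ y, EE S φ c (p * h) (p * h') y ∂m‖ ^ 2 =
          ∑ h ∈ range H, ∑ h' ∈ range H, ∑ p ∈ PB 1 i,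
          ‖∫ y, EE S φ c (p * h) (p * h') y ∂m‖ ^ 2 := by
        rw [Finset.sum_comm]
        exact Finset.sum_congr rfl fun h _ => Finset.sum_comm
      rw [h3]
      simp only [← Finset.sum_mul, ← Finset.mul_sum, Finset.sum_add_distrib, Finset.sum_const,
        Finset.card_range, nsmul_eq_mul]
      ring
    rw [h2]
    have h5 := mul_le_mul_of_nonneg_left hyp2 hb0.le
    have h6 : b * (∑ p ∈ PB 1 i, ∑ h ∈ range H, ∑ h' ∈ range H,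
          ‖∫ y, EE S φ c (p * h) (p * h') y ∂m‖ ^ 2) +
          (H : ℝ) ^ 2 * (c₀ ^ 2 / 8 * b ^ 2) ≤ 3 / 8 * c₀ ^ 2 * b ^ 2 * (H : ℝ) ^ 2 := by
      have h6a : b * (c₀ ^ 2 / 4 * b * (H : ℝ) ^ 2) + (H : ℝ) ^ 2 * (c₀ ^ 2 / 8 * b ^ 2) =
          3 / 8 * c₀ ^ 2 * b ^ 2 * (H : ℝ) ^ 2 := by ring
      linarith
    exact mul_le_mul_of_nonneg_right h6 hMpos.le
  have hg2 : (H : ℝ) ^ 2 * Sg ^ 2 ≤ b ^ 2 * (M * (3 / 8 * c₀ ^ 2 * b ^ 2 * (H : ℝ) ^ 2 * M) +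
      4 * b ^ 2 * V ^ 4 * ((H : ℝ) ^ 3 * M + (H : ℝ) ^ 4)) := by
    refine hg.trans ?_
    have hqq : (Q.card : ℝ) ^ 2 ≤ b ^ 2 := pow_le_pow_left₀ hq0 hqb 2
    refine mul_le_mul hqq ?_ ?_ (by positivity)
    · refine add_le_add (mul_le_mul_of_nonneg_left hup hMpos.le) ?_
      have h7 : (0 : ℝ) ≤ V ^ 4 * ((H : ℝ) ^ 3 * M + (H : ℝ) ^ 4) := by positivity
      have h7a := mul_le_mul_of_nonneg_right hqq h7
      have h7b : 4 * (Q.card : ℝ) ^ 2 * V ^ 4 * ((H : ℝ) ^ 3 * M + (H : ℝ) ^ 4) =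
          4 * ((Q.card : ℝ) ^ 2 * (V ^ 4 * ((H : ℝ) ^ 3 * M + (H : ℝ) ^ 4))) := by ring
      have h7c : 4 * b ^ 2 * V ^ 4 * ((H : ℝ) ^ 3 * M + (H : ℝ) ^ 4) =
          4 * (b ^ 2 * (V ^ 4 * ((H : ℝ) ^ 3 * M + (H : ℝ) ^ 4))) := by ring
      rw [h7b, h7c]
      linarith
    · exact add_nonneg (mul_nonneg hMpos.le (Finset.sum_nonneg fun _ _ =>
        Finset.sum_nonneg fun _ _ => Finset.sum_nonneg fun _ _ => sq_nonneg _))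
        (mul_nonneg (by positivity) (by positivity))
  have hlow : (c₀ * b ^ 2 * M) ^ 2 ≤ Sg ^ 2 := pow_le_pow_left₀ (by positivity) hM1 2
  have hH2 : (0 : ℝ) < (H : ℝ) ^ 2 := by positivity
  have h8 : (H : ℝ) ^ 2 * (c₀ * b ^ 2 * M) ^ 2 ≤
      b ^ 2 * (M * (3 / 8 * c₀ ^ 2 * b ^ 2 * (H : ℝ) ^ 2 * M) +
      4 * b ^ 2 * V ^ 4 * ((H : ℝ) ^ 3 * M + (H : ℝ) ^ 4)) :=
    (mul_le_mul_of_nonneg_left hlow hH2.le).trans hg2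
  have hbH : (0 : ℝ) < b ^ 4 * (H : ℝ) ^ 2 := by positivity
  have h9 : b ^ 4 * (H : ℝ) ^ 2 * (c₀ ^ 2 * (M : ℝ) ^ 2) ≤
      b ^ 4 * (H : ℝ) ^ 2 * (3 / 8 * c₀ ^ 2 * (M : ℝ) ^ 2 +
        4 * V ^ 4 * ((H : ℝ) * M + (H : ℝ) ^ 2)) := by
    refine le_trans (le_of_eq ?_) (h8.trans (le_of_eq ?_))
    · ring
    · ring
  have h10 := le_of_mul_le_mul_left h9 hbH
  have h11 : (H : ℝ) * M + (H : ℝ) ^ 2 ≤ 2 * ((H : ℝ) * M) := by nlinarith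
  have h12 : 4 * V ^ 4 * ((H : ℝ) * M + (H : ℝ) ^ 2) ≤ 8 * V ^ 4 * H * M := by
    have h13 : (0 : ℝ) ≤ 4 * V ^ 4 := by positivity
    nlinarith [mul_le_mul_of_nonneg_left h11 h13]
  have h14 : 16 * V ^ 4 * H * M < c₀ ^ 2 * M * M := mul_lt_mul_of_pos_right hM4 hMpos
  have h15 : 0 < c₀ ^ 2 * (M : ℝ) * M := by positivity
  have h16 : c₀ ^ 2 * (M : ℝ) ^ 2 = c₀ ^ 2 * (M : ℝ) * M := by ring
  have h17 : 3 / 8 * c₀ ^ 2 * (M : ℝ) ^ 2 = 3 / 8 * (c₀ ^ 2 * (M : ℝ) * M) := by ring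
  rw [h16, h17] at h10
  linarith

end Pool.Agent.Helper16.BZ
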